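import Pool.Agent.Y145.OQ.MID

/-! Project OQ: numbers of odd permutations, the case `p ≤ m < 2 p`. -/

set_option autoImplicit false

namespace Pool.Agent.Y536.OQ.SMALL

open Finset Equiv.Perm
open Pool.Agent.Y536.OQ (oddc S_SMALL)
open Pool.Agent.Y145.OQ.MID

open scoped Nat

open Classical in
theorem fixc (m : ℕ) (c : Equiv.Perm (Fin m)) :
    (univ.filter fun t : Equiv.Perm (Fin m) => ∀ x ∈ c.support, t x = x).card =
      (m - c.support.card)! := by
  rw [← Fintype.card_subtype]
  have e : Equiv.Perm {x : Fin m // x ∉ c.support} ≃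
      {t : Equiv.Perm (Fin m) // ∀ x ∈ c.support, t x = x} :=
    (Equiv.Perm.subtypeEquivSubtypePerm (fun x : Fin m => x ∉ c.support)).trans
      (Equiv.subtypeEquivRight fun f => by simp only [not_not])
  rw [← Fintype.card_congr e, Fintype.card_perm]
  congr 1
  rw [Fintype.card_subtype_compl, Fintype.card_fin, Fintype.card_coe]

open Classical in
theorem bad (m p : ℕ) (hp : p.Prime) (hpm : p ≤ m) (hm : m < 2 * p) :
    p * (univ.filter fun s : Equiv.Perm (Fin m) => p ∣ orderOf s).card ≤ m ! := by
  have hsub : (univ.filter fun s : Equiv.Perm (Fin m) => p ∣ orderOf s) ⊆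
      (univ.filter fun c : Equiv.Perm (Fin m) => c.cycleType = {p}).biUnion fun c =>
        (univ.filter fun t : Equiv.Perm (Fin m) => ∀ x ∈ c.support, t x = x).image
          fun t => c * t := by
    intro s hs
    have hs' := (mem_filter.1 hs).2
    rw [← lcm_cycleType] at hs'
    have h1 : p ∣ s.cycleType.prod :=
      hs'.trans (Multiset.lcm_dvd.2 fun b hb => Multiset.dvd_prod hb)
    obtain ⟨a, ha, hpa⟩ := Prime.exists_mem_multiset_dvd hp.prime h1
    obtain ⟨c, t, hst, hd, hc, hca⟩ := mem_cycleType_iff.1 ha
    have ham : a ≤ m := by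
      rw [← hca]
      exact (Finset.card_le_univ _).trans (by rw [Fintype.card_fin])
    have hapos : 0 < a := by
      have := two_le_of_mem_cycleType ha
      omega
    have hap : a = p := by
      obtain ⟨k, rfl⟩ := hpa
      have hk : k < 2 := by
        by_contra hk
        have : p * 2 ≤ p * k := Nat.mul_le_mul_left p (by omega)
        omega
      interval_cases k
      · omega
      · omega
    rw [mem_biUnion]
    refine ⟨c, mem_filter.2 ⟨mem_univ _, ?_⟩, mem_image.2 ⟨t, mem_filter.2 ⟨mem_univ _, ?_⟩, ?_⟩⟩
    · rw [hc.cycleType, hca, hap]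
    · intro x hx
      rcases hd x with h | h
      · exact absurd h (mem_support.1 hx)
      · exact h
    · exact hst.symm
  have hcard := (card_le_card hsub).trans card_biUnion_le
  have hN := hsing m p hp.two_le hpm
  set N := (univ.filter fun c : Equiv.Perm (Fin m) => c.cycleType = {p}).card with hNdef
  have h2 : ∑ c ∈ univ.filter (fun c : Equiv.Perm (Fin m) => c.cycleType = {p}),
      ((univ.filter fun t : Equiv.Perm (Fin m) => ∀ x ∈ c.support, t x = x).image
          fun t => c * t).card ≤ N * (m - p)! := by
    rw [hNdef, ← smul_eq_mul, ← Finset.sum_const]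
    apply Finset.sum_le_sum
    intro c hc
    refine card_image_le.trans ?_
    rw [fixc]
    have : c.support.card = p := by
      rw [← sum_cycleType, (mem_filter.1 hc).2, Multiset.sum_singleton]
    rw [this]
  calc p * _ ≤ p * (N * (m - p)!) := Nat.mul_le_mul_left _ (hcard.trans h2)
    _ = N * ((m - p)! * p) := by ring
    _ = m ! := hN

open Classical in
theorem card_odd (m : ℕ) (hm : 2 ≤ m) :
    2 * (univ.filter fun s : Equiv.Perm (Fin m) => Equiv.Perm.sign s = -1).card = m ! := by
  haveI : Nontrivial (Fin m) := Fin.nontrivial_iff_two_le.2 hm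
  have h1 := two_mul_nat_card_alternatingGroup (α := Fin m)
  rw [Nat.card_perm, Nat.card_fin] at h1
  have h2 : Nat.card (alternatingGroup (Fin m)) =
      (univ.filter fun s : Equiv.Perm (Fin m) => Equiv.Perm.sign s = 1).card := by
    rw [Nat.card_eq_fintype_card, ← Fintype.card_subtype]
    exact Fintype.card_congr (Equiv.subtypeEquivRight fun s => Equiv.Perm.mem_alternatingGroup)
  have h3 : (univ.filter fun s : Equiv.Perm (Fin m) => Equiv.Perm.sign s = 1).card +
      (univ.filter fun s : Equiv.Perm (Fin m) => Equiv.Perm.sign s = -1).card = m ! := by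
    have h4 := Finset.card_filter_add_card_filter_not (s := (univ : Finset (Equiv.Perm (Fin m))))
      (fun s => Equiv.Perm.sign s = 1)
    rw [Finset.card_univ, Fintype.card_perm, Fintype.card_fin] at h4
    rw [← h4]
    congr 2
    ext s
    simp only [mem_filter, mem_univ, true_and]
    rcases Int.units_eq_one_or (Equiv.Perm.sign s) with h | h <;> simp [h]
  omega

theorem done : S_SMALL := by
  classical
  intro m p hp h2 h5 hpm hm
  have hp2 := hp.two_le
  rcases lt_or_ge p 5 with hlt | hge
  · have h3 : p = 3 := by
      interval_cases p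
      · exact absurd rfl h2
      · rfl
      · exact absurd hp (by norm_num)
    subst h3
    have hm5 : m = 5 := by omega
    subst hm5
    have e1 := hsing 5 2 (by norm_num) (by norm_num)
    have e2 := hsing 5 4 (by norm_num) (by norm_num)
    have e3 := two_le 5 3 {2} {4} (by decide) (by decide) (by decide) (by decide) (by decide)
    have f1 : (5 - 2)! * 2 = 12 := rfl
    have f2 : (5 - 4)! * 4 = 4 := rfl
    have f3 : 5 ! = 120 := rfl
    rw [f1, f3] at e1
    rw [f2, f3] at e2
    rw [f3]
    omega
  · have hb := bad m p hp hpm hm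
    have ho := card_odd m (by omega)
    have hs : (univ.filter fun s : Equiv.Perm (Fin m) => Equiv.Perm.sign s = -1).card ≤
        oddc m p + (univ.filter fun s : Equiv.Perm (Fin m) => p ∣ orderOf s).card := by
      rw [oddc_eq]
      refine le_trans (card_le_card ?_) (card_union_le _ _)
      intro s hs
      rw [mem_union, mem_filter, mem_filter]
      by_cases h : p ∣ orderOf s
      · exact Or.inr ⟨mem_univ _, h⟩
      · exact Or.inl ⟨mem_univ _, (mem_filter.1 hs).2, h⟩
    set O := (univ.filter fun s : Equiv.Perm (Fin m) => Equiv.Perm.sign s = -1).card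
    set D := (univ.filter fun s : Equiv.Perm (Fin m) => p ∣ orderOf s).card
    set F := Nat.factorial m with hF
    have k1 : 2 * p * F ≤ 4 * p * oddc m p + 4 * (p * D) := by
      calc 2 * p * F = 4 * p * O := by rw [← ho]; ring
        _ ≤ 4 * p * (oddc m p + D) := Nat.mul_le_mul_left _ hs
        _ = _ := by ring
    have k2 : (p + 1) * F + 4 * F ≤ 2 * p * F := by
      have : (p + 5) * F ≤ (2 * p) * F := Nat.mul_le_mul_right _ (by omega)
      linarith
    linarith

end Pool.Agent.Y536.OQ.SMALL
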