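import Pool.Agent.Y536.OQ.SER
import Pool.Agent.Y404.OQ.BIG
import Pool.Agent.Y145.OQ.MID
import Pool.Agent.Y536.OQ.SMALL
import Pool.Agent.Y67.OQ.COS
import Pool.Agent.Y406.OQ.EXT

/-! Project OQ: the final statement. -/

set_option autoImplicit false

namespace Pool.Agent.Y536.OQ

open Pool.Agent.Y536.OP Pool.Agent.Y536.OP.SA Finset

theorem odd_ineq (m : ℕ) (hm : 5 ≤ m) : OddIneq m :=
  Pool.Agent.Y67.OQ.COS.done m hm fun p hp h2 hpm =>
    bounds Pool.Agent.Y404.OQ.BIG.done Pool.Agent.Y145.OQ.MID.done Pool.Agent.Y536.OQ.SMALL.done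
      m hm p hp h2 hpm

theorem final {G : Type} [Group G] [Finite G] (M : ℕ → Subgroup G)
    [hM : ∀ i, (M i).Normal] (h0 : M 0 = ⊥) (hle : ∀ i, M i ≤ M (i + 1)) (n : ℕ)
    (hs : ∀ i < n, Group.IsSolvable ((M (i + 1)).map (QuotientGroup.mk' (M i))) ∨
      Alt (M i) (M (i + 1))) (k : ℕ) (H : Fin k → Type) [∀ i, Group (H i)] [∀ i, Finite (H i)]
    (hH : ∀ i, Good (H i)) (e : G ⧸ M n ≃* ∀ i, H i)
    (hS : (∃ i < n, Alt (M i) (M (i + 1))) ∨ ∃ i, SGood (H i)) : SGood G :=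
  main Pool.Agent.Y406.OQ.EXT.done odd_ineq M h0 hle n hs k H hH e hS

end Pool.Agent.Y536.OQ
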