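import Pool.Agent.Y536.OQ.Stm

/-! Project OQ: normal series. -/

set_option autoImplicit false
set_option linter.unusedSectionVars false
set_option linter.style.haveILetI false

namespace Pool.Agent.Y536.OQ

open Pool.Agent.Y536.OP Pool.Agent.Y536.OP.SA Finset

/-- `B / A` is isomorphic to an alternating group of degree `m ≥ 5` on which `G` acts through
`S_m`. -/
def Alt {G : Type} [Group G] (A B : Subgroup G) : Prop :=
  ∃ m : ℕ, 5 ≤ m ∧ ∃ f : G →* Equiv.Perm (Fin m), B ⊓ f.ker = A ∧ B.map f = alternatingGroup (Fin m)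

section
variable {G : Type} [Group G] [Finite G]

theorem step_sol (Q : (G : Type) → [Group G] → Prop)
    (hcongr : ∀ (G H : Type) [Group G] [Group H], G ≃* H → Q G → Q H)
    (hext : ∀ (G : Type) [Group G] [Finite G] (r : ℕ) (N : Subgroup G) [N.Normal], r.Prime →
      (∃ a, Nat.card N = r ^ a) → Q (G ⧸ N) → Q G) (A B : Subgroup G) [A.Normal] [B.Normal]
    (hAB : A ≤ B) (hs : Group.IsSolvable (B.map (QuotientGroup.mk' A))) (h : Q (G ⧸ B)) :
    Q (G ⧸ A) :=
  sol_ext Q hcongr hext _ (G ⧸ A) (B.map (QuotientGroup.mk' A)) le_rfl hs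
    (hcongr _ _ (QuotientGroup.quotientQuotientEquivQuotient A B hAB).symm h)

theorem step_alt (he : S_EXT) (ho : ∀ m, 5 ≤ m → OddIneq m) (A B : Subgroup G) [A.Normal]
    [B.Normal] (hAB : A ≤ B) (ha : Alt A B) (h : Good (G ⧸ B)) : Good (G ⧸ A) ∧ SGood (G ⧸ A) := by
  obtain ⟨m, hm, f, hf1, hf2⟩ := ha
  have hker : A ≤ f.ker := by
    rw [← hf1]
    exact inf_le_right
  have hlift : ∀ y : G, QuotientGroup.lift A f hker (QuotientGroup.mk' A y) = f y := fun y => rfl
  refine he m hm (ho m hm) (G ⧸ A) (B.map (QuotientGroup.mk' A)) (QuotientGroup.lift A f hker)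
    ?_ ?_ (h.congr (QuotientGroup.quotientQuotientEquivQuotient A B hAB).symm)
  · rw [eq_bot_iff]
    rintro _ ⟨⟨y, hy, rfl⟩, hx⟩
    have hx' : f y = 1 := by
      have := (MonoidHom.mem_ker).1 hx
      rwa [hlift] at this
    have hyA : y ∈ A := by
      rw [← hf1]
      exact ⟨hy, (MonoidHom.mem_ker).2 hx'⟩
    rw [Subgroup.mem_bot]
    exact (QuotientGroup.eq_one_iff y).2 hyA
  · rw [← hf2]
    ext z
    constructor
    · rintro ⟨_, ⟨y, hy, rfl⟩, rfl⟩
      exact ⟨y, hy, rfl⟩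
    · rintro ⟨y, hy, rfl⟩
      exact ⟨_, ⟨y, hy, rfl⟩, rfl⟩

theorem series (he : S_EXT) (ho : ∀ m, 5 ≤ m → OddIneq m) (M : ℕ → Subgroup G)
    [hM : ∀ i, (M i).Normal] (hle : ∀ i, M i ≤ M (i + 1)) (n : ℕ) :
    (∀ i < n, Group.IsSolvable ((M (i + 1)).map (QuotientGroup.mk' (M i))) ∨
      Alt (M i) (M (i + 1))) → Good (G ⧸ M n) → Good (G ⧸ M 0) ∧
      ((SGood (G ⧸ M n) ∨ ∃ i < n, Alt (M i) (M (i + 1))) → SGood (G ⧸ M 0)) := by
  induction n with
  | zero =>
    intro _ h
    refine ⟨h, ?_⟩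
    rintro (h | ⟨i, hi, _⟩)
    · exact h
    · omega
  | succ n ih =>
    intro hi h
    have hi' := fun i (hin : i < n) => hi i (by omega)
    by_cases ha : Alt (M n) (M (n + 1))
    · obtain ⟨h1, h2⟩ := step_alt he ho (M n) (M (n + 1)) (hle n) ha h
      obtain ⟨h3, h4⟩ := ih hi' h1
      exact ⟨h3, fun _ => h4 (Or.inl h2)⟩
    · have hs := (hi n (by omega)).resolve_right ha
      have h1 : Good (G ⧸ M n) := step_sol (fun G _ => Good G) (fun G H _ _ e h => h.congr e)
        (fun G _ _ r N _ hr hN h => h.ext N hr hN) (M n) (M (n + 1)) (hle n) hs h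
      obtain ⟨h3, h4⟩ := ih hi' h1
      refine ⟨h3, ?_⟩
      rintro (h5 | ⟨i, hin, hia⟩)
      · exact h4 (Or.inl (step_sol (fun G _ => SGood G) (fun G H _ _ e h => h.congr e)
          (fun G _ _ r N _ hr hN h => h.ext N hr hN) (M n) (M (n + 1)) (hle n) hs h5))
      · have hne : i ≠ n := by
          rintro rfl
          exact ha hia
        exact h4 (Or.inr ⟨i, by omega, hia⟩)

/-- the main statement -/
theorem main (he : S_EXT) (ho : ∀ m, 5 ≤ m → OddIneq m) (M : ℕ → Subgroup G)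
    [hM : ∀ i, (M i).Normal] (h0 : M 0 = ⊥) (hle : ∀ i, M i ≤ M (i + 1)) (n : ℕ)
    (hs : ∀ i < n, Group.IsSolvable ((M (i + 1)).map (QuotientGroup.mk' (M i))) ∨
      Alt (M i) (M (i + 1))) (k : ℕ) (H : Fin k → Type) [∀ i, Group (H i)] [∀ i, Finite (H i)]
    (hH : ∀ i, Good (H i)) (e : G ⧸ M n ≃* ∀ i, H i)
    (hS : (∃ i < n, Alt (M i) (M (i + 1))) ∨ ∃ i, SGood (H i)) : SGood G := by
  have hg : Good (G ⧸ M n) := (good_pi H hH).congr e.symm
  refine SGood.congr ((QuotientGroup.quotientMulEquivOfEq h0).trans QuotientGroup.quotientBot)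
    ((series he ho M hle n hs hg).2 ?_)
  rcases hS with h | h
  · exact Or.inr h
  · exact Or.inl ((sgood_pi H hH h).congr e.symm)

end

/-- the bounds -/
theorem bounds (hB : S_BIG) (hM : S_MID) (hS : S_SMALL) (m : ℕ) (hm : 5 ≤ m) (p : ℕ) (hp : p.Prime)
    (h2 : p ≠ 2) (hpm : p ≤ m) :
    (p + 1) * m.factorial ≤ 4 * p ^ (m.factorial).factorization p * oddc m p := by
  have hp3 : 3 ≤ p := by
    have := hp.two_le
    omega
  rcases lt_or_ge m (3 * p) with h | h
  · have hlog : Nat.log p m < 2 := by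
      apply Nat.log_lt_of_lt_pow (by omega)
      nlinarith
    have hv : (m.factorial).factorization p = m / p := by
      rw [Nat.factorization_factorial hp hlog]
      have : Finset.Ico 1 2 = {1} := rfl
      rw [this, Finset.sum_singleton, pow_one]
    rcases lt_or_ge m (2 * p) with h' | h'
    · have : m / p = 1 := Nat.div_eq_of_lt_le (by omega) (by omega)
      rw [hv, this, pow_one]
      exact hS m p hp h2 hm hpm h'
    · have : m / p = 2 := Nat.div_eq_of_lt_le (by omega) (by omega)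
      rw [hv, this]
      exact hM m p hp h2 h' h
  · have h3 := hB m p hp h2 (by omega)
    have h4 := num hp h2 h
    set q := p ^ (m.factorial).factorization p with hq
    calc (p + 1) * m.factorial ≤ (p + 1) * (2 * m * oddc m p) := Nat.mul_le_mul_left _ h3
      _ = 2 * (m * (p + 1)) * oddc m p := by ring
      _ ≤ 2 * q * oddc m p := Nat.mul_le_mul_right _ (Nat.mul_le_mul_left _ h4)
      _ ≤ 4 * q * oddc m p := Nat.mul_le_mul_right _ (Nat.mul_le_mul_right _ (by norm_num))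

end Pool.Agent.Y536.OQ
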