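import Mathlib

/-! Project OQ: numbers of odd permutations. Statements. -/

set_option autoImplicit false

namespace Pool.Agent.Y536.OQ

open scoped Nat

/-- the number of odd permutations of order not divisible by `p` -/
noncomputable def oddc (m p : ℕ) : ℕ :=
  Nat.card {s : Equiv.Perm (Fin m) // Equiv.Perm.sign s = -1 ∧ ¬ p ∣ orderOf s}

/-- BIG -/
def S_BIG : Prop := ∀ m p : ℕ, p.Prime → p ≠ 2 → 9 ≤ m → m ! ≤ 2 * m * oddc m p

/-- MID -/
def S_MID : Prop := ∀ m p : ℕ, p.Prime → p ≠ 2 → 2 * p ≤ m → m < 3 * p →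
  (p + 1) * m ! ≤ 4 * p ^ 2 * oddc m p

/-- SMALL -/
def S_SMALL : Prop := ∀ m p : ℕ, p.Prime → p ≠ 2 → 5 ≤ m → p ≤ m → m < 2 * p →
  (p + 1) * m ! ≤ 4 * p * oddc m p

end Pool.Agent.Y536.OQ
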