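import Pool.Agent.Y536.OP.SA7
import Pool.Agent.Y536.OQ.Stm0

/-! Project OQ: the odd permutations; normal series with alternating factors. Statements. -/

set_option autoImplicit false

namespace Pool.Agent.Y536.OQ

open Pool.Agent.Y536.OP Pool.Agent.Y536.OP.SA Finset

open scoped Nat

/-- the inequality for the odd permutations -/
def OddIneq (m : ℕ) : Prop := ∀ (σ : Finset ℕ) (δ : ℕ → ℝ), (∀ p ∈ σ, p.Prime) →
  (∀ p ∈ σ, 0 ≤ δ p ∧ δ p ≤ 1 / p) → 2 ∉ σ →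
    ∑ s ∈ univ.filter (fun s : Equiv.Perm (Fin m) => Equiv.Perm.sign s = -1), phi σ δ s ≤
      Nat.card (alternatingGroup (Fin m)) * Bd σ δ (Nat.card (alternatingGroup (Fin m)))

/-- COS -/
def S_COS : Prop := ∀ m : ℕ, 5 ≤ m →
  (∀ p : ℕ, p.Prime → p ≠ 2 → p ≤ m →
    (p + 1) * m ! ≤ 4 * p ^ (m !).factorization p * oddc m p) → OddIneq m

/-- EXT -/
def S_EXT : Prop := ∀ m : ℕ, 5 ≤ m → OddIneq m →
  ∀ (G : Type) [Group G] [Finite G] (N : Subgroup G) [N.Normal] (f : G →* Equiv.Perm (Fin m)),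
    N ⊓ f.ker = ⊥ → N.map f = alternatingGroup (Fin m) → Good (G ⧸ N) → Good G ∧ SGood G

end Pool.Agent.Y536.OQ
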